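import Mathlib

/-!
# MP_65fa9f_co: the domatic number of a Cartesian product is not bounded

For every `k` there are finite connected graphs `G`, `H` without isolated vertices, both of
domatic number exactly `2`, whose Cartesian product has domatic number at least `k`.
-/

set_option autoImplicit false

namespace Pool.Agent.Results.MP_65fa9f_co.Unbounded

/-- `D` is a dominating set of `G`: every vertex outside `D` has a neighbour in `D`. -/
def Dominating {V : Type} (G : SimpleGraph V) (D : Set V) : Prop :=
  ∀ v, v ∉ D → ∃ u ∈ D, G.Adj v u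

/-- The domatic number of `G`: the largest `k` such that the vertex set can be partitioned into
`k` dominating sets (the parts are the fibres of `f : V → Fin k`; the fibres are nonempty if the
graph has a vertex). -/
noncomputable def domaticNumber {V : Type} (G : SimpleGraph V) : ℕ :=
  sSup {k : ℕ | ∃ f : V → Fin k, ∀ i : Fin k, Dominating G {v | f v = i}}

/-- The vertex type of the host graph on a finite set `X`: the points of `X` together with all
subsets of `X` containing at least a third of the points. -/
abbrev Vert (X : Type) [Fintype X] : Type :=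
  X ⊕ {S : Finset X // Fintype.card X ≤ 3 * S.card}

/-- Two points are always related; a point is related to the sets that contain it. -/
def hostRel (X : Type) [Fintype X] : Vert X → Vert X → Prop
  | Sum.inl _, Sum.inl _ => True
  | Sum.inl x, Sum.inr S => x ∈ S.1
  | Sum.inr _, _ => False

/-- The host graph. -/
def host (X : Type) [Fintype X] : SimpleGraph (Vert X) := SimpleGraph.fromRel (hostRel X)

lemma host_inl_inl {X : Type} [Fintype X] {x y : X} (h : x ≠ y) :
    (host X).Adj (Sum.inl x) (Sum.inl y) := by
  simp [host, hostRel, h]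

lemma host_inl_inr {X : Type} [Fintype X] {x : X}
    {S : {S : Finset X // Fintype.card X ≤ 3 * S.card}} (h : x ∈ S.1) :
    (host X).Adj (Sum.inl x) (Sum.inr S) := by
  simp [host, hostRel, h]

lemma host_inr_adj {X : Type} [Fintype X]
    {S : {S : Finset X // Fintype.card X ≤ 3 * S.card}} {v : Vert X}
    (h : (host X).Adj (Sum.inr S) v) : ∃ x ∈ S.1, v = Sum.inl x := by
  rcases v with x | T
  · refine ⟨x, ?_, rfl⟩
    simpa [host, hostRel] using h
  · simp [host, hostRel] at h

/-- A set of at least a third of the points is nonempty. -/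
lemma set_nonempty {X : Type} [Fintype X] [Nonempty X]
    (S : {S : Finset X // Fintype.card X ≤ 3 * S.card}) : S.1.Nonempty := by
  have h1 : 0 < S.1.card := by
    have := S.2
    have h2 : 0 < Fintype.card X := Fintype.card_pos
    omega
  exact Finset.card_pos.1 h1

/-- The vertex of the full set. -/
def full (X : Type) [Fintype X] : {S : Finset X // Fintype.card X ≤ 3 * S.card} :=
  ⟨Finset.univ, by rw [Finset.card_univ]; omega⟩

/-- No host graph on a nonempty point set has an isolated vertex. -/
lemma host_no_isolated (X : Type) [Fintype X] [Nonempty X] (v : Vert X) :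
    ∃ u, (host X).Adj v u := by
  rcases v with x | S
  · exact ⟨Sum.inr (full X), host_inl_inr (Finset.mem_univ x)⟩
  · obtain ⟨x, hx⟩ := set_nonempty S
    exact ⟨Sum.inl x, (host_inl_inr hx).symm⟩

/-- Host graphs on nonempty sets are connected. -/
lemma host_connected (X : Type) [Fintype X] [Nonempty X] : (host X).Connected := by
  have hfull : ∀ v : Vert X, (host X).Reachable v (Sum.inr (full X)) := by
    rintro (x | S)
    · exact (host_inl_inr (Finset.mem_univ x)).reachable
    · obtain ⟨x, hx⟩ := set_nonempty S
      exact ((host_inl_inr hx).symm.reachable).trans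
        (host_inl_inr (Finset.mem_univ x)).reachable
  haveI : Nonempty (Vert X) := ⟨Sum.inr (full X)⟩
  exact SimpleGraph.Connected.mk (fun u v => (hfull u).trans (hfull v).symm)

/-- The class of a colour after merging all colours from `2` on. -/
def cls {j : ℕ} (i : Fin j) : Fin 3 :=
  if i.val = 0 then 0 else if i.val = 1 then 1 else 2

/-- A host graph has no partition into three or more dominating sets. -/
lemma host_domatic (X : Type) [Fintype X] (j : ℕ) (hj : 3 ≤ j)
    (h : Vert X → Fin j)
    (hd : ∀ (i : Fin j) (w : Vert X), h w = i ∨ ∃ x, (host X).Adj w x ∧ h x = i) : False := by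
  classical
  -- a colour class of the merged colouring of the points is large
  obtain ⟨c, hc⟩ : ∃ c : Fin 3,
      Fintype.card X ≤ 3 * (Finset.univ.filter (fun x : X => cls (h (Sum.inl x)) = c)).card := by
    by_contra hcon
    push Not at hcon
    have hsum : Fintype.card X =
        ∑ c : Fin 3, (Finset.univ.filter (fun x : X => cls (h (Sum.inl x)) = c)).card := by
      have := Finset.card_eq_sum_card_fiberwise (s := (Finset.univ : Finset X))
        (t := (Finset.univ : Finset (Fin 3))) (f := fun x : X => cls (h (Sum.inl x)))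
        (fun x _ => Finset.mem_coe.2 (Finset.mem_univ _))
      exact (Finset.card_univ).symm.trans this
    rw [Fin.sum_univ_three] at hsum
    have h0 := hcon 0
    have h1 := hcon 1
    have h2 := hcon 2
    omega
  set S : {S : Finset X // Fintype.card X ≤ 3 * S.card} := ⟨_, hc⟩ with hS
  have key : ∀ i : Fin j, i = h (Sum.inr S) ∨ cls i = c := by
    intro i
    rcases hd i (Sum.inr S) with h1 | ⟨x, hx, hxi⟩
    · exact Or.inl h1.symm
    · obtain ⟨y, hy, rfl⟩ := host_inr_adj hx
      right
      rw [← hxi]
      have : y ∈ Finset.univ.filter (fun x : X => cls (h (Sum.inl x)) = c) := hy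
      exact (Finset.mem_filter.1 this).2
  have k0 := key ⟨0, by omega⟩
  have k1 := key ⟨1, by omega⟩
  have k2 := key ⟨2, by omega⟩
  have c0 : cls (⟨0, by omega⟩ : Fin j) = 0 := by simp [cls]
  have c1 : cls (⟨1, by omega⟩ : Fin j) = 1 := by simp [cls]
  have c2 : cls (⟨2, by omega⟩ : Fin j) = 2 := by simp [cls]
  rw [c0] at k0
  rw [c1] at k1
  rw [c2] at k2
  have e01 : (⟨0, by omega⟩ : Fin j) ≠ ⟨1, by omega⟩ := by simp
  have e02 : (⟨0, by omega⟩ : Fin j) ≠ ⟨2, by omega⟩ := by simp
  have e12 : (⟨1, by omega⟩ : Fin j) ≠ ⟨2, by omega⟩ := by simp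
  rcases k0 with k0 | k0 <;> rcases k1 with k1 | k1 <;> rcases k2 with k2 | k2
  · exact e01 (k0.trans k1.symm)
  · exact e01 (k0.trans k1.symm)
  · exact e02 (k0.trans k2.symm)
  · rw [← k1] at k2; exact absurd k2 (by decide)
  · exact e12 (k1.trans k2.symm)
  · rw [← k0] at k2; exact absurd k2 (by decide)
  · rw [← k0] at k1; exact absurd k1 (by decide)
  · rw [← k0] at k1; exact absurd k1 (by decide)

/-- The two descriptions of a partition into dominating sets. -/
lemma dominating_iff {V : Type} (G : SimpleGraph V) {k : ℕ} (f : V → Fin k) :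
    (∀ i : Fin k, Dominating G {v | f v = i}) ↔
      ∀ (i : Fin k) (v : V), f v = i ∨ ∃ u, G.Adj v u ∧ f u = i := by
  constructor
  · intro h i v
    by_cases hv : f v = i
    · exact Or.inl hv
    · obtain ⟨u, hu, huv⟩ := h i v hv
      exact Or.inr ⟨u, huv, hu⟩
  · intro h i v hv
    rcases h i v with h1 | ⟨u, huv, hu⟩
    · exact absurd h1 hv
    · exact ⟨u, hu, huv⟩

/-- The numbers of parts are bounded by the number of vertices. -/
lemma bddAbove {V : Type} [Fintype V] [Nonempty V] (G : SimpleGraph V) :
    BddAbove {k : ℕ | ∃ f : V → Fin k, ∀ i : Fin k, Dominating G {v | f v = i}} := by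
  refine ⟨Fintype.card V, ?_⟩
  rintro k ⟨f, hf⟩
  have hsurj : Function.Surjective f := by
    intro i
    obtain ⟨v⟩ := (inferInstance : Nonempty V)
    rcases (dominating_iff G f).1 hf i v with h | ⟨u, -, hu⟩
    · exact ⟨v, h⟩
    · exact ⟨u, hu⟩
  simpa using Fintype.card_le_of_surjective f hsurj

lemma le_domaticNumber {V : Type} [Fintype V] [Nonempty V] (G : SimpleGraph V) {k : ℕ}
    (f : V → Fin k) (hf : ∀ (i : Fin k) (v : V), f v = i ∨ ∃ u, G.Adj v u ∧ f u = i) :
    k ≤ domaticNumber G :=
  le_csSup (bddAbove G) ⟨f, (dominating_iff G f).2 hf⟩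

/-- The domatic number of a host graph is two. -/
lemma domaticNumber_host (X : Type) [Fintype X] [Nonempty X] : domaticNumber (host X) = 2 := by
  haveI : Nonempty (Vert X) := ⟨Sum.inr (full X)⟩
  haveI : DecidableEq X := Classical.decEq X
  haveI : Fintype (Vert X) := Fintype.ofFinite _
  apply le_antisymm
  · refine csSup_le' ?_
    rintro k ⟨f, hf⟩
    by_contra hk
    exact host_domatic X k (by omega) f ((dominating_iff _ f).1 hf)
  · refine le_domaticNumber (host X) (fun v => Sum.elim (fun _ => (0 : Fin 2)) (fun _ => 1) v) ?_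
    intro i v
    rcases v with x | S
    · fin_cases i
      · left; rfl
      · right
        exact ⟨Sum.inr (full X), host_inl_inr (Finset.mem_univ x), rfl⟩
    · fin_cases i
      · right
        obtain ⟨x, hx⟩ := set_nonempty S
        exact ⟨Sum.inl x, (host_inl_inr hx).symm, rfl⟩
      · left; rfl

/-- An elementary product inequality. -/
lemma prod_sub_mul_le {V : Type} [DecidableEq V] (K : ℕ) (a : V → ℕ) (s : Finset V)
    (ha : ∀ g ∈ s, a g ≤ K) :
    (∏ g ∈ s, (K - a g)) * (K + ∑ g ∈ s, a g) ≤ K ^ (s.card + 1) := by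
  induction s using Finset.induction_on with
  | empty => simp
  | insert g s hg ih =>
    have ih' := ih (fun x hx => ha x (Finset.mem_insert_of_mem hx))
    rw [Finset.prod_insert hg, Finset.sum_insert hg, Finset.card_insert_of_notMem hg]
    obtain ⟨b, hb⟩ := Nat.exists_eq_add_of_le (ha g (Finset.mem_insert_self g s))
    have hKb : K - a g = b := by omega
    rw [hKb]
    set P := ∏ g ∈ s, (K - a g) with hP
    set T := ∑ g ∈ s, a g with hT
    have h1 : b * (K + (a g + T)) ≤ K * (K + T) := by
      rw [hb]
      nlinarith [Nat.zero_le (a g * a g), Nat.zero_le (a g * T)]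
    calc b * P * (K + (a g + T)) = P * (b * (K + (a g + T))) := by ring
      _ ≤ P * (K * (K + T)) := Nat.mul_le_mul_left _ h1
      _ = K * (P * (K + T)) := by ring
      _ ≤ K * K ^ (s.card + 1) := Nat.mul_le_mul_left _ ih'
      _ = K ^ (s.card + 1 + 1) := by ring

/-- If a set `S` of words over `K` letters has at least a third of all words, then in total at
most `2 K` letter-position pairs are missing from `S`. -/
lemma missing_le {V : Type} [Fintype V] [DecidableEq V] (K : ℕ) (hK : 0 < K)
    (S : Finset (V → Fin K))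
    (hS : Fintype.card (V → Fin K) ≤ 3 * S.card) (m : V → Finset (Fin K))
    (hm : ∀ g i, i ∈ m g → ∀ x ∈ S, x g ≠ i) : ∑ g, (m g).card ≤ 2 * K := by
  classical
  have h1 : S ⊆ Fintype.piFinset (fun g => (m g)ᶜ) := by
    intro x hx
    rw [Fintype.mem_piFinset]
    intro g
    rw [Finset.mem_compl]
    intro hg
    exact hm g _ hg x hx rfl
  have h2 : S.card ≤ ∏ g, (K - (m g).card) := by
    refine (Finset.card_le_card h1).trans ?_
    rw [Fintype.card_piFinset]
    refine Finset.prod_le_prod' (fun g _ => ?_)
    rw [Finset.card_compl, Fintype.card_fin]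
  have h3 := prod_sub_mul_le K (fun g => (m g).card) Finset.univ
    (fun g _ => by simpa using Finset.card_le_univ (m g))
  rw [Finset.card_univ] at h3
  have h4 : Fintype.card (V → Fin K) = K ^ Fintype.card V := by
    rw [Fintype.card_fun, Fintype.card_fin]
  rw [h4] at hS
  have h5 : K ^ Fintype.card V * (K + ∑ g, (m g).card) ≤ K ^ Fintype.card V * (3 * K) := by
    calc K ^ Fintype.card V * (K + ∑ g, (m g).card)
        ≤ (3 * ∏ g, (K - (m g).card)) * (K + ∑ g, (m g).card) :=
          Nat.mul_le_mul_right _ (hS.trans (Nat.mul_le_mul_left 3 h2))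
      _ = 3 * ((∏ g, (K - (m g).card)) * (K + ∑ g, (m g).card)) := by ring
      _ ≤ 3 * K ^ (Fintype.card V + 1) := Nat.mul_le_mul_left 3 h3
      _ = K ^ Fintype.card V * (3 * K) := by ring
  have h6 := Nat.le_of_mul_le_mul_left h5 (pow_pos hK _)
  omega

/-- If every closed neighbourhood has at least `N` elements and at most `N` vertex-colour demands
are made, some colouring meets all of them. -/
lemma exists_colouring {V : Type} [Fintype V] [DecidableEq V] (K M : ℕ) (hK : 0 < K)
    (N : V → Finset V) (hN : ∀ g, M ≤ (N g).card) (m : V → Finset (Fin K))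
    (hm : ∑ g, (m g).card ≤ M) :
    ∃ c : V → Fin K, ∀ g, ∀ i ∈ m g, ∃ g' ∈ N g, c g' = i := by
  classical
  let D : Finset (Σ _ : V, Fin K) := Finset.univ.sigma m
  have hD : D.card ≤ M := by
    rw [Finset.card_sigma]; exact hm
  have hall : ∀ s : Finset D, s.card ≤ (s.biUnion (fun d => N d.1.1)).card := by
    intro s
    rcases s.eq_empty_or_nonempty with rfl | ⟨d, hd⟩
    · simp
    · calc s.card ≤ Fintype.card D := Finset.card_le_univ s
        _ = D.card := Fintype.card_coe D
        _ ≤ M := hD
        _ ≤ (N d.1.1).card := hN _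
        _ ≤ _ := Finset.card_le_card (Finset.subset_biUnion_of_mem (fun d : D => N d.1.1) hd)
  obtain ⟨φ, hφ, hφN⟩ := (Finset.all_card_le_biUnion_card_iff_exists_injective
    (fun d : D => N d.1.1)).1 hall
  refine ⟨fun v => if hv : ∃ d : D, φ d = v then (Classical.choose hv).1.2 else ⟨0, hK⟩, ?_⟩
  intro g i hi
  have hmem : (⟨g, i⟩ : Σ _ : V, Fin K) ∈ D := by
    simp [D, hi]
  let d : D := ⟨⟨g, i⟩, hmem⟩
  refine ⟨φ d, hφN d, ?_⟩
  have hv : ∃ d' : D, φ d' = φ d := ⟨d, rfl⟩
  have h1 := hφ (Classical.choose_spec hv)
  show (if hv : ∃ d' : D, φ d' = φ d then (Classical.choose hv).1.2 else ⟨0, hK⟩) = i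
  rw [dif_pos hv, h1]

/-- The colouring of the product of two host graphs. -/
lemma product_colouring (K : ℕ) (hK : 0 < K) :
    ∃ f : Vert (Fin (6 * K)) × Vert (Vert (Fin (6 * K)) → Fin K) → Fin K,
      ∀ (i : Fin K) (p : Vert (Fin (6 * K)) × Vert (Vert (Fin (6 * K)) → Fin K)),
        f p = i ∨ ∃ q, ((host (Fin (6 * K))).boxProd
          (host (Vert (Fin (6 * K)) → Fin K))).Adj p q ∧ f q = i := by
  classical
  let V : Type := Vert (Fin (6 * K))
  let G : SimpleGraph V := host (Fin (6 * K))
  let X : Type := V → Fin K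
  let W : Type := Vert X
  let H : SimpleGraph W := host X
  -- closed neighbourhoods in `G`
  let N : V → Finset V := fun g => Finset.univ.filter (fun g' => g' = g ∨ G.Adj g g')
  have hN : ∀ g, 2 * K ≤ (N g).card := by
    rintro (x | S)
    · have hsub : (Finset.univ : Finset (Fin (6 * K))).image (fun y => (Sum.inl y : V)) ⊆
          N (Sum.inl x) := by
        intro v hv
        rw [Finset.mem_image] at hv
        obtain ⟨y, -, rfl⟩ := hv
        refine Finset.mem_filter.2 ⟨Finset.mem_univ _, ?_⟩
        by_cases hxy : x = y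
        · left; rw [hxy]
        · right; exact host_inl_inl hxy
      have := Finset.card_le_card hsub
      rw [Finset.card_image_of_injective _ Sum.inl_injective] at this
      simp only [Finset.card_univ, Fintype.card_fin] at this
      omega
    · have hsub : S.1.image (fun y => (Sum.inl y : V)) ⊆ N (Sum.inr S) := by
        intro v hv
        rw [Finset.mem_image] at hv
        obtain ⟨y, hy, rfl⟩ := hv
        refine Finset.mem_filter.2 ⟨Finset.mem_univ _, ?_⟩
        right; exact (host_inl_inr hy).symm
      have h1 := Finset.card_le_card hsub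
      rw [Finset.card_image_of_injective _ Sum.inl_injective] at h1
      have h2 : Fintype.card (Fin (6 * K)) ≤ 3 * S.1.card := S.2
      have h3 : Fintype.card (Fin (6 * K)) = 6 * K := Fintype.card_fin _
      omega
  -- letters missing from a set of words
  let m : Finset X → V → Finset (Fin K) := fun S g =>
    Finset.univ.filter (fun i => ∀ x ∈ S, x g ≠ i)
  have hcol : ∀ S : {S : Finset X // Fintype.card X ≤ 3 * S.card},
      ∃ c : V → Fin K, ∀ g, ∀ i ∈ m S.1 g, ∃ g' ∈ N g, c g' = i := by
    intro S
    refine exists_colouring K (2 * K) hK N hN (m S.1) ?_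
    exact missing_le K hK S.1 S.2 (m S.1) (fun g i hi => (Finset.mem_filter.1 hi).2)
  choose col hcolspec using hcol
  refine ⟨fun p => match p.2 with
      | Sum.inl x => x p.1
      | Sum.inr S => col S p.1, ?_⟩
  rintro i ⟨g, x | S⟩
  · by_cases hx : x g = i
    · left; exact hx
    · right
      refine ⟨(g, Sum.inl (Function.update x g i)), ?_, ?_⟩
      · rw [SimpleGraph.boxProd_adj]
        right
        refine ⟨host_inl_inl ?_, rfl⟩
        intro h
        apply hx
        rw [h]
        simp
      · show Function.update x g i g = i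
        simp
  · by_cases hi : i ∈ m S.1 g
    · obtain ⟨g', hg', hc⟩ := hcolspec S g i hi
      rcases (Finset.mem_filter.1 hg').2 with rfl | hadj
      · left; exact hc
      · right
        refine ⟨(g', Sum.inr S), ?_, hc⟩
        rw [SimpleGraph.boxProd_adj]
        left
        exact ⟨hadj, rfl⟩
    · have : ∃ x ∈ S.1, x g = i := by
        by_contra hcon
        push Not at hcon
        exact hi (Finset.mem_filter.2 ⟨Finset.mem_univ _, hcon⟩)
      obtain ⟨x, hxS, hxi⟩ := this
      right
      refine ⟨(g, Sum.inl x), ?_, hxi⟩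
      rw [SimpleGraph.boxProd_adj]
      right
      exact ⟨(host_inl_inr hxS).symm, rfl⟩

/-- For every `k` there are finite connected graphs `G`, `H` without isolated vertices and with
`d(G) = d(H) = 2` and `d(G □ H) ≥ k`. -/
theorem result (k : ℕ) :
    ∃ (V W : Type) (_ : Fintype V) (_ : Fintype W) (G : SimpleGraph V) (H : SimpleGraph W),
      G.Connected ∧ H.Connected ∧ (∀ v, ∃ u, G.Adj v u) ∧ (∀ w, ∃ x, H.Adj w x) ∧
      domaticNumber G = 2 ∧ domaticNumber H = 2 ∧ k ≤ domaticNumber (G.boxProd H) := by
  classical
  rcases Nat.eq_zero_or_pos k with rfl | hk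
  · refine ⟨Vert (Fin 1), Vert (Fin 1), Fintype.ofFinite _, Fintype.ofFinite _,
      host (Fin 1), host (Fin 1), host_connected _, host_connected _, host_no_isolated _,
      host_no_isolated _, domaticNumber_host _, domaticNumber_host _, Nat.zero_le _⟩
  · haveI : Nonempty (Fin (6 * k)) := ⟨⟨0, by omega⟩⟩
    haveI : Nonempty (Vert (Fin (6 * k)) → Fin k) := ⟨fun _ => ⟨0, hk⟩⟩
    obtain ⟨f, hf⟩ := product_colouring k hk
    haveI : Nonempty (Vert (Fin (6 * k))) := ⟨Sum.inr (full _)⟩
    haveI : Nonempty (Vert (Vert (Fin (6 * k)) → Fin k)) := ⟨Sum.inr (full _)⟩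
    haveI : Fintype (Vert (Fin (6 * k)) × Vert (Vert (Fin (6 * k)) → Fin k)) :=
      Fintype.ofFinite _
    exact ⟨Vert (Fin (6 * k)), Vert (Vert (Fin (6 * k)) → Fin k), Fintype.ofFinite _,
      Fintype.ofFinite _, host _, host _, host_connected _, host_connected _,
      host_no_isolated _, host_no_isolated _, domaticNumber_host _, domaticNumber_host _,
      le_domaticNumber _ f hf⟩

end Pool.Agent.Results.MP_65fa9f_co.Unbounded
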